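import Pool.Agent.Helper57.SJ.Stmts
import Pool.Agent.Helper47.Q2.TL

/-! # Row SUP: large values of a sum over primes in intervals -/

set_option autoImplicit false

namespace Pool.Agent.Helper43.SJ

open MeasureTheory Set Filter Topology
open Pool.Agent.Helper57.SJ

theorem st_SUP (hMK2 : ST_MK2) (hSB : ST_SB) : ST_SUP := by
  intro P a M S B η H T k hP hPM hM1 hk hη hH hT hS hB
  have hT0 : 0 < T := by linarith
  have hM0 : 0 ≤ M := by linarith
  have hlog : ∀ p : ℕ, 0 ≤ Real.log (p : ℝ) := fun p => Real.log_natCast_nonneg p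
  obtain ⟨b, hb⟩ : ∃ b : ℕ → ℂ, ∀ p, b p = a p * (-((Real.log (p : ℝ) : ℝ) : ℂ) * Complex.I) :=
    ⟨_, fun _ => rfl⟩
  obtain ⟨D, hD⟩ : ∃ D : ℝ → ℂ, D = fun t => ∑ p ∈ P, a p * Pool.Agent.Helper57.QZ.TL47.E p t :=
    ⟨_, rfl⟩
  obtain ⟨D', hD'⟩ : ∃ D : ℝ → ℂ, D = fun t => ∑ p ∈ P, b p * Pool.Agent.Helper57.QZ.TL47.E p t :=
    ⟨_, rfl⟩
  have hDd : ∀ t, HasDerivAt D (D' t) t := by
    intro t
    have h1 : ∀ p ∈ P, HasDerivAt (fun t => a p * Pool.Agent.Helper57.QZ.TL47.E p t)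
        (b p * Pool.Agent.Helper57.QZ.TL47.E p t) t := by
      intro p _
      have h3 : HasDerivAt (fun t : ℝ => ((t * Real.log (p : ℝ) : ℝ) : ℂ))
          ((Real.log (p : ℝ) : ℝ) : ℂ) t := by
        have := ((hasDerivAt_id t).mul_const (Real.log (p : ℝ))).ofReal_comp
        simpa using this
      have h4 := (h3.mul_const Complex.I).neg
      have h5 := h4.cexp.const_mul (a p)
      have h7 : a p * (Complex.exp ((-fun y : ℝ => ((y * Real.log (p : ℝ) : ℝ) : ℂ) *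
          Complex.I) t) * -(((Real.log (p : ℝ) : ℝ) : ℂ) * Complex.I)) =
          b p * Pool.Agent.Helper57.QZ.TL47.E p t := by
        rw [hb]
        unfold Pool.Agent.Helper57.QZ.TL47.E
        simp only [Pi.neg_apply]
        ring
      exact h5.congr_deriv h7
    have h6 := HasDerivAt.fun_sum h1
    rw [hD, hD']
    exact h6
  have hcD : Continuous D := continuous_iff_continuousAt.mpr (fun t => (hDd t).continuousAt)
  have hcD' : Continuous D' := by
    rw [hD']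
    have hE := Pool.Agent.Helper57.QZ.TL47.E_cont
    fun_prop
  have ha1 : ∀ p ∈ P, ‖a p‖ ≤ ‖a p‖ * (1 + Real.log (p : ℝ)) := by
    intro p _
    have := mul_nonneg (norm_nonneg (a p)) (hlog p)
    linarith
  have hb1 : ∀ p ∈ P, ‖b p‖ ≤ ‖a p‖ * (1 + Real.log (p : ℝ)) := by
    intro p _
    rw [hb, norm_mul, norm_mul, norm_neg, Complex.norm_I, mul_one, Complex.norm_real,
      Real.norm_of_nonneg (hlog p)]
    have := norm_nonneg (a p)
    linarith
  have key : ∀ c : ℕ → ℂ, (∀ p ∈ P, ‖c p‖ ≤ ‖a p‖ * (1 + Real.log (p : ℝ))) →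
      ∫ t in T..(2 * T), ‖∑ p ∈ P, c p * Pool.Agent.Helper57.QZ.TL47.E p t‖ ^ (2 * k) ≤
        T * (k.factorial * S ^ k) + 2 * M ^ k * B ^ (2 * k) := by
    intro c hc
    refine (Pool.Agent.Helper57.QZ.TL47.mv P hP M hPM hM1 c k T hT0).trans ?_
    have s1 : ∑ p ∈ P, ‖c p‖ ^ 2 ≤ S :=
      (Finset.sum_le_sum fun p hp => pow_le_pow_left₀ (norm_nonneg _) (hc p hp) 2).trans hS
    have s2 : ∑ p ∈ P, ‖c p‖ ≤ B := (Finset.sum_le_sum hc).trans hB
    have s3 : (∑ p ∈ P, ‖c p‖ ^ 2) ^ k ≤ S ^ k :=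
      pow_le_pow_left₀ (Finset.sum_nonneg fun p _ => sq_nonneg _) s1 k
    have s4 : (∑ p ∈ P, ‖c p‖) ^ (2 * k) ≤ B ^ (2 * k) :=
      pow_le_pow_left₀ (Finset.sum_nonneg fun p _ => norm_nonneg _) s2 _
    exact add_le_add
      (mul_le_mul_of_nonneg_left (mul_le_mul_of_nonneg_left s3 (Nat.cast_nonneg _)) hT0.le)
      (mul_le_mul_of_nonneg_left s4 (by positivity))
  obtain ⟨f, hf⟩ : ∃ f : ℝ → ℝ, f = fun t => (2 * (k : ℝ) + 1) * (‖D t‖ ^ (2 * k) +
    ‖D' t‖ ^ (2 * k)) := ⟨_, rfl⟩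
  have hcf : Continuous f := by
    rw [hf]
    exact continuous_const.mul ((hcD.norm.pow _).add (hcD'.norm.pow _))
  have hf0 : ∀ t, 0 ≤ f t := by
    intro t
    rw [hf]
    positivity
  obtain ⟨E, hE1, hE2, hE3⟩ := hMK2 f H (η ^ (2 * k)) T hH (by positivity) hT
    hcf.continuousOn.integrableOn_Icc hf0
  refine ⟨E, hE1, hE2.trans ?_, ?_⟩
  · have hI : ∫ t in T..(2 * T), f t ≤
        (4 * k + 2) * (T * (k.factorial * S ^ k) + 2 * M ^ k * B ^ (2 * k)) := by
      have e : ∫ t in T..(2 * T), f t = (2 * (k : ℝ) + 1) *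
          ((∫ t in T..(2 * T), ‖D t‖ ^ (2 * k)) + ∫ t in T..(2 * T), ‖D' t‖ ^ (2 * k)) := by
        have i1 : IntervalIntegrable (fun t => ‖D t‖ ^ (2 * k)) volume T (2 * T) :=
          (hcD.norm.pow _).intervalIntegrable _ _
        have i2 : IntervalIntegrable (fun t => ‖D' t‖ ^ (2 * k)) volume T (2 * T) :=
          (hcD'.norm.pow _).intervalIntegrable _ _
        rw [hf, intervalIntegral.integral_const_mul, intervalIntegral.integral_add i1 i2]
      rw [e]
      have k1 := key a ha1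
      have k2 := key b hb1
      rw [hD, hD']
      have h0 : (0 : ℝ) ≤ 2 * k + 1 := by positivity
      have h3 := mul_le_mul_of_nonneg_left (add_le_add k1 k2) h0
      refine h3.trans (le_of_eq ?_)
      ring
    apply mul_le_mul_of_nonneg_left _ (by linarith)
    have := div_le_div_of_nonneg_right hI (by positivity : (0 : ℝ) ≤ η ^ (2 * k))
    linarith
  · intro u hu huE t ht
    obtain ⟨h1, h2, h3⟩ := hE3 u hu huE
    have h4 := hSB D D' k hk hDd hcD' t
    have h5 : (2 * (k : ℝ) + 1) * ∫ s in t..(t + 1), (‖D s‖ ^ (2 * k) + ‖D' s‖ ^ (2 * k)) =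
        ∫ s in t..(t + 1), f s := by
      rw [hf, ← intervalIntegral.integral_const_mul]
    have h6 : ∫ s in t..(t + 1), f s ≤ ∫ s in (u - 1)..(u + H + 1), f s :=
      intervalIntegral.integral_mono_interval (by linarith [ht.1]) (by linarith)
        (by linarith [ht.2]) (Filter.Eventually.of_forall hf0) (hcf.intervalIntegrable _ _)
    have h7 : ‖D t‖ ^ (2 * k) ≤ η ^ (2 * k) := by linarith
    have h8 := (pow_le_pow_iff_left₀ (norm_nonneg _) hη.le (by omega)).mp h7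
    rw [hD] at h8
    exact h8

end Pool.Agent.Helper43.SJ
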